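import Pool.Agent.Helper37_CAP.Stmts
import Pool.Agent.Common_Sieve.Primes

/-!
Squad CAP, module SVA: the sieve bound for the members of the special family with one `m`.
-/

set_option autoImplicit false
set_option exponentiation.threshold 1000

namespace Pool.Agent.CAP.H67

open Finset Pool.Agent.Common_Sieve

theorem prod_ge (T : Finset ℕ) (hT : ∀ p ∈ T, 2 ≤ p) :
    1 / ((T.card : ℝ) + 1) ≤ ∏ p ∈ T, (1 - (1 : ℝ) / p) := by
  induction T using Finset.induction_on_max with
  | empty => simp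
  | insert M s hM ih =>
    have hMs : M ∉ s := fun h => lt_irrefl _ (hM M h)
    rw [Finset.prod_insert hMs, Finset.card_insert_of_notMem hMs]
    have ih' := ih (fun p hp => hT p (Finset.mem_insert_of_mem hp))
    have hcard : s.card + 2 ≤ M := by
      have h1 : s ⊆ Finset.Ico 2 M := fun p hp => by
        rw [Finset.mem_Ico]; exact ⟨hT p (Finset.mem_insert_of_mem hp), hM p hp⟩
      have h2 := Finset.card_le_card h1
      rw [Nat.card_Ico] at h2
      have h3 := hT M (Finset.mem_insert_self _ _)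
      omega
    have hM' : (s.card : ℝ) + 2 ≤ M := by exact_mod_cast hcard
    have hs0 : (0 : ℝ) ≤ s.card := Nat.cast_nonneg _
    have h4 : ((s.card : ℝ) + 1) / (s.card + 2) ≤ 1 - (1 : ℝ) / M := by
      rw [div_le_iff₀ (by linarith)]
      have : (1 : ℝ) / M * (s.card + 2) ≤ 1 := by
        rw [div_mul_eq_mul_div, one_mul, div_le_one (by linarith)]; exact hM'
      linarith
    calc 1 / (((s.card + 1 : ℕ) : ℝ) + 1)
        = ((s.card : ℝ) + 1) / (s.card + 2) * (1 / (s.card + 1)) := by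
          push_cast
          field_simp
          ring
      _ ≤ (1 - (1 : ℝ) / M) * ∏ p ∈ s, (1 - (1 : ℝ) / p) :=
          mul_le_mul h4 ih' (by positivity) (le_trans (by positivity) h4)

theorem card_pf (Q : ℕ) (hQ : Q ≠ 0) :
    (Q.primeFactors.card : ℝ) ≤ Real.log Q / Real.log 2 := by
  have h1 : 2 ^ Q.primeFactors.card ≤ Q := by
    calc 2 ^ Q.primeFactors.card ≤ ∏ p ∈ Q.primeFactors, p := by
          rw [← Finset.prod_const]
          exact Finset.prod_le_prod' (fun p hp => (Nat.prime_of_mem_primeFactors hp).two_le)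
      _ ≤ Q := Nat.le_of_dvd (Nat.pos_of_ne_zero hQ) (Nat.prod_primeFactors_dvd Q)
  have h2 : ((2 : ℝ)) ^ Q.primeFactors.card ≤ (Q : ℝ) := by exact_mod_cast h1
  rw [le_div_iff₀ (Real.log_pos one_lt_two), ← Real.log_pow]
  exact Real.log_le_log (by positivity) h2

theorem prod_S (w Q : ℕ) (hw : 2 ≤ w) (hQ : Q ≠ 0) :
    ∏ p ∈ (range w).filter (fun p => p.Prime ∧ ¬ p ∣ Q), (1 - (1 : ℝ) / p) ≤
      ((Q.primeFactors.card : ℝ) + 1) / Real.log w := by
  set S := (range w).filter (fun p => p.Prime ∧ ¬ p ∣ Q) with hS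
  set S' := (range w).filter (fun p => p.Prime ∧ p ∣ Q) with hS'
  have hlogw : 0 < Real.log w := Real.log_pos (by exact_mod_cast (by omega : 1 < w))
  have hu : w.primesBelow = S' ∪ S := by
    ext p
    rw [hS, hS']
    simp only [Nat.mem_primesBelow, Finset.mem_union, Finset.mem_filter, Finset.mem_range]
    constructor
    · rintro ⟨h1, h2⟩
      by_cases h : p ∣ Q
      · left; exact ⟨h1, h2, h⟩
      · right; exact ⟨h1, h2, h⟩
    · rintro (⟨h1, h2, _⟩ | ⟨h1, h2, _⟩) <;> exact ⟨h1, h2⟩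
  have hd : Disjoint S' S := by
    rw [Finset.disjoint_left]
    intro p hp hp'
    rw [hS', Finset.mem_filter] at hp
    rw [hS, Finset.mem_filter] at hp'
    exact hp'.2.2 hp.2.2
  have h1 := mertens_prod w hw
  rw [hu, Finset.prod_union hd] at h1
  have h2 : 1 / ((Q.primeFactors.card : ℝ) + 1) ≤ ∏ p ∈ S', (1 - (1 : ℝ) / p) := by
    refine (prod_ge Q.primeFactors
      (fun p hp => (Nat.prime_of_mem_primeFactors hp).two_le)).trans ?_
    apply prod_le_prod_subset
    · intro p hp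
      rw [hS', Finset.mem_filter] at hp
      exact Nat.mem_primeFactors.2 ⟨hp.2.1, hp.2.2, hQ⟩
    · intro p hp
      exact (one_sub_inv_pos (Nat.prime_of_mem_primeFactors hp)).le
    · intro p _
      exact one_sub_inv_le p
  have h3 : 0 ≤ ∏ p ∈ S, (1 - (1 : ℝ) / p) := Finset.prod_nonneg (fun p hp => by
    rw [hS, Finset.mem_filter] at hp
    exact (one_sub_inv_pos hp.2.1).le)
  have h4 : 1 / ((Q.primeFactors.card : ℝ) + 1) * ∏ p ∈ S, (1 - (1 : ℝ) / p) ≤
      1 / Real.log w := (mul_le_mul_of_nonneg_right h2 h3).trans h1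
  have h5 : (0 : ℝ) < (Q.primeFactors.card : ℝ) + 1 := by positivity
  calc ∏ p ∈ S, (1 - (1 : ℝ) / p) = ((Q.primeFactors.card : ℝ) + 1) *
        (1 / ((Q.primeFactors.card : ℝ) + 1) * ∏ p ∈ S, (1 - (1 : ℝ) / p)) := by
          field_simp
    _ ≤ ((Q.primeFactors.card : ℝ) + 1) * (1 / Real.log w) :=
        mul_le_mul_of_nonneg_left h4 h5.le
    _ = ((Q.primeFactors.card : ℝ) + 1) / Real.log w := by ring

theorem count_le (A B Q Y : ℕ) (hA : 1 ≤ A) (hB : 1 ≤ B) (hAB : A = B + 1 ∨ A = B + 2)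
    (hQ : Q ≠ 0) (hAQ : A ∣ Q) (hBQ : B ∣ Q) (h2Q : 2 ∣ Q) (hY : 101 ≤ lev Y) :
    (((Finset.Icc 1 Y).filter (fun c => (B * c + 1).Prime ∧ (A * c + 1).Prime)).card : ℝ) ≤
      (32 + 3 * (1200 * ((Q.primeFactors.card : ℝ) + 1)) ^ 2) * (Y / Real.log Y ^ 2) := by
  set T := (Finset.Icc 1 Y).filter (fun c => (B * c + 1).Prime ∧ (A * c + 1).Prime) with hT
  set r : ℝ := (Q.primeFactors.card : ℝ) + 1 with hr
  have hr0 : 0 < r := by positivity
  set w := lev Y with hw
  have hw600 := lev_pow_le Y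
  rw [← hw] at hw600
  have hY0 : 0 < Y := (pow_pos (show 0 < w by omega) 600).trans_le hw600
  have hwY : w ≤ Y := by
    have h1 : w ^ 1 ≤ w ^ 600 := Nat.pow_le_pow_right (by omega) (by norm_num)
    rw [pow_one] at h1
    omega
  have hY1 : 1 < Y := by omega
  set S := (range w).filter (fun p => p.Prime ∧ ¬ p ∣ Q) with hS
  have hSm : ∀ p ∈ S, p < w ∧ p.Prime ∧ ¬ p ∣ Q := by
    intro p hp
    rw [hS, Finset.mem_filter, Finset.mem_range] at hp
    exact hp
  have hS3 : ∀ p ∈ S, 3 ≤ p := by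
    intro p hp
    obtain ⟨_, h2, h3⟩ := hSm p hp
    rcases h2.eq_two_or_odd with h | h
    · exact absurd (h ▸ h2Q) h3
    · have := h2.two_le
      omega
  have hsieve := sieve_two (z := w) (by omega) (fun p hp => ⟨(hSm p hp).2.1, (hSm p hp).1⟩)
    hS3 (B : ℤ) 1 (A : ℤ) 1
    (fun p hp h => (hSm p hp).2.2 ((Int.natCast_dvd_natCast.1 h).trans hBQ))
    (fun p hp h => (hSm p hp).2.2 ((Int.natCast_dvd_natCast.1 h).trans hAQ))
    (by
      intro p hp h
      have h3 := hS3 p hp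
      have h4 : (p : ℤ) ∣ 2 := by
        rcases hAB with e | e
        · have e2 : (2 : ℤ) = ((B : ℤ) * 1 - (A : ℤ) * 1) * (-2) := by rw [e]; push_cast; ring
          rw [e2]
          exact Dvd.dvd.mul_right h _
        · have e2 : (2 : ℤ) = ((B : ℤ) * 1 - (A : ℤ) * 1) * (-1) := by rw [e]; push_cast; ring
          rw [e2]
          exact Dvd.dvd.mul_right h _
      have h5 : p ∣ 2 := by exact_mod_cast h4
      have := Nat.le_of_dvd (by norm_num) h5
      omega) 0 Y 31
  set T1 := T.filter (fun c : ℕ => c < w) with hT1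
  set T3 := T.filter (fun c : ℕ => w ≤ c) with hT3
  have hTsub : T ⊆ T1 ∪ T3 := by
    intro c hc
    rcases Nat.lt_or_ge c w with h | h
    · exact Finset.mem_union.2 (Or.inl (Finset.mem_filter.2 ⟨hc, h⟩))
    · exact Finset.mem_union.2 (Or.inr (Finset.mem_filter.2 ⟨hc, h⟩))
  have hc1 : (T1.card : ℝ) ≤ w := by
    have : T1 ⊆ range w := by
      intro n hn
      rw [Finset.mem_range]
      exact (Finset.mem_filter.1 hn).2
    have := Finset.card_le_card this
    rw [Finset.card_range] at this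
    exact_mod_cast this
  have hc3 : (T3.card : ℝ) ≤ (((Finset.Ioc (0:ℤ) (0 + Y)).filter (fun n => ∀ p ∈ S,
        ¬ ((p : ℤ) ∣ (B : ℤ) * n + 1 ∨ (p : ℤ) ∣ (A : ℤ) * n + 1))).card : ℝ) := by
    have h1 : (T3.image (fun n : ℕ => (n : ℤ))).card = T3.card :=
      Finset.card_image_of_injective _ Nat.cast_injective
    rw [← h1]
    have h2 : T3.image (fun n : ℕ => (n : ℤ)) ⊆ (Finset.Ioc (0:ℤ) (0 + Y)).filter
        (fun n => ∀ p ∈ S, ¬ ((p : ℤ) ∣ (B : ℤ) * n + 1 ∨ (p : ℤ) ∣ (A : ℤ) * n + 1)) := by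
      intro x hx
      obtain ⟨n, hn, rfl⟩ := Finset.mem_image.1 hx
      obtain ⟨hnT, hwn⟩ := Finset.mem_filter.1 hn
      obtain ⟨hnI, hp1, hp2⟩ := Finset.mem_filter.1 hnT
      rw [Finset.mem_Icc] at hnI
      rw [Finset.mem_filter, Finset.mem_Ioc]
      refine ⟨⟨by exact_mod_cast hnI.1, by simpa using hnI.2⟩, ?_⟩
      intro p hp hor
      obtain ⟨hpw, hpp, _⟩ := hSm p hp
      rcases hor with h | h
      · have h4 : p ∣ B * n + 1 := by exact_mod_cast h
        have := (Nat.prime_dvd_prime_iff_eq hpp hp1).1 h4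
        have : 1 * n ≤ B * n := Nat.mul_le_mul_right n hB
        omega
      · have h4 : p ∣ A * n + 1 := by exact_mod_cast h
        have := (Nat.prime_dvd_prime_iff_eq hpp hp2).1 h4
        have : 1 * n ≤ A * n := Nat.mul_le_mul_right n hA
        omega
    exact_mod_cast Finset.card_le_card h2
  have hcard : (T.card : ℝ) ≤ w + T3.card := by
    have h1 := Finset.card_le_card hTsub
    have h2 := Finset.card_union_le T1 T3
    have h4 : (T.card : ℝ) ≤ T1.card + T3.card := by exact_mod_cast h1.trans h2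
    linarith
  -- the product
  have hlogY : 0 < Real.log Y := Real.log_pos (by exact_mod_cast hY1)
  have hlogw : Real.log Y / 1200 ≤ Real.log w := log_lev_ge (by omega)
  have hlogw0 : 0 < Real.log w := Real.log_pos (by exact_mod_cast (by omega : 1 < w))
  have hYr : (0:ℝ) < Y := by exact_mod_cast hY0
  have hprod : ∏ p ∈ S, (1 - (2:ℝ) / p) ≤ (1200 * r / Real.log Y) ^ 2 := by
    have h1 : ∏ p ∈ S, (1 - (2:ℝ) / p) ≤ ∏ p ∈ S, (1 - (1:ℝ) / p) ^ 2 := by
      apply Finset.prod_le_prod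
      · intro p hp
        have h2 : (3:ℝ) ≤ p := by exact_mod_cast hS3 p hp
        rw [sub_nonneg, div_le_one (by linarith)]
        linarith
      · intro p hp
        have h2 : (0:ℝ) ≤ (1 / p) ^ 2 := by positivity
        have h3 : (2:ℝ) / p = 2 * (1 / p) := by ring
        rw [h3]
        nlinarith
    rw [Finset.prod_pow] at h1
    refine h1.trans ?_
    have h2 := prod_S w Q (by omega) hQ
    have h3 : 0 ≤ ∏ p ∈ S, (1 - (1:ℝ) / p) :=
      Finset.prod_nonneg (fun p hp => (one_sub_inv_pos (hSm p hp).2.1).le)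
    apply pow_le_pow_left₀ h3
    refine h2.trans ?_
    rw [← hr, div_le_div_iff₀ hlogw0 hlogY]
    have := mul_le_mul_of_nonneg_left hlogw hr0.le
    linarith
  have hS3' : (T3.card : ℝ) ≤ Y * (1200 * r / Real.log Y) ^ 2 * 3 + Real.sqrt Y := by
    have e1 : (w : ℝ) ^ (8 * 31 + 12) ≤ Real.sqrt Y := lev_pow_sqrt Y (by omega)
    have e2 : (Y : ℝ) * (∏ p ∈ S, (1 - (2:ℝ) / p)) * Real.exp (epsB 31)
        ≤ Y * (1200 * r / Real.log Y) ^ 2 * 3 := by
      apply mul_le_mul _ exp_epsB_31 (Real.exp_pos _).le (by positivity)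
      exact mul_le_mul_of_nonneg_left hprod hYr.le
    exact le_trans (hc3.trans (le_of_eq (by congr!))) (hsieve.trans (add_le_add e2 e1))
  have hws : (w : ℝ) ≤ Real.sqrt Y := by
    refine le_trans ?_ (lev_pow_sqrt Y (by omega))
    rw [← hw]
    have : (1:ℝ) ≤ w := by exact_mod_cast (by omega : 1 ≤ w)
    exact le_self_pow₀ this (by norm_num)
  have hsq : Real.sqrt Y ≤ 16 * Y / Real.log Y ^ 2 := by
    rw [le_div_iff₀ (by positivity)]
    have h1 := log_sq_le Y (by exact_mod_cast hY0)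
    have h2 : Real.sqrt Y * Real.sqrt Y = Y := Real.mul_self_sqrt hYr.le
    have h3 : 0 ≤ Real.sqrt Y := Real.sqrt_nonneg _
    nlinarith
  calc (T.card : ℝ) ≤ 2 * Real.sqrt Y + Y * (1200 * r / Real.log Y) ^ 2 * 3 := by linarith
    _ ≤ 2 * (16 * Y / Real.log Y ^ 2) + Y * (1200 * r / Real.log Y) ^ 2 * 3 := by linarith
    _ = (32 + 3 * (1200 * r) ^ 2) * (Y / Real.log Y ^ 2) := by
        field_simp
        ring

/-- decomposition of `m + 1` and `m - 1` -/
theorem dec (m : ℕ) (hm : 2 ≤ m) : ∃ g A B : ℕ, 1 ≤ g ∧ g ≤ 2 ∧ m + 1 = g * A ∧ m = g * B + 1 ∧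
    1 ≤ B ∧ (A = B + 1 ∨ A = B + 2) ∧ Nat.Coprime A B := by
  rcases Nat.even_or_odd m with h | h
  · obtain ⟨l, hl⟩ := h
    refine ⟨1, m + 1, m - 1, le_rfl, by norm_num, by ring, by omega, by omega, by omega, ?_⟩
    have h1 : m + 1 = (m - 1) + 2 := by omega
    rw [h1, Nat.coprime_self_add_left]
    rw [Nat.coprime_two_left, Nat.odd_iff]
    omega
  · obtain ⟨l, hl⟩ := h
    refine ⟨2, l + 1, l, by norm_num, le_rfl, by omega, by omega, by omega, Or.inl rfl, ?_⟩
    simp

theorem form (g A B m n q q' : ℕ) (hg1 : 1 ≤ g) (hA : m + 1 = g * A) (hB : m = g * B + 1)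
    (hB1 : 1 ≤ B) (hcop : Nat.Coprime A B) (hq : q.Prime) (hq' : q'.Prime)
    (e1 : n + 1 = (m + 1) * q) (e2 : n = (m - 1) * q' + 1) :
    ∃ c, 1 ≤ c ∧ (B * c + 1).Prime ∧ (A * c + 1).Prime ∧ n = m + (m + 1) * B * c := by
  obtain ⟨a, rfl⟩ : ∃ a, q = a + 2 := ⟨q - 2, by have := hq.two_le; omega⟩
  obtain ⟨b, rfl⟩ : ∃ b, q' = b + 2 := ⟨q' - 2, by have := hq'.two_le; omega⟩
  have h1 : A * (a + 1) = B * (b + 1) := by
    have hgp : 0 < g := hg1
    have h2 : m - 1 = g * B := by omega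
    rw [h2] at e2
    rw [hA] at e1
    have h3 : g * (A * (a + 1)) = g * (B * (b + 1)) := by
      have e3 : g * B * (b + 2) + 1 + 1 = g * A * (a + 2) := by rw [← e2, ← e1]
      have e4 : g * A = g * B + 2 := by omega
      nlinarith
    exact Nat.eq_of_mul_eq_mul_left hgp h3
  have h2 : B ∣ a + 1 := by
    have : B ∣ A * (a + 1) := ⟨b + 1, h1⟩
    exact (Nat.Coprime.dvd_of_dvd_mul_left hcop.symm this)
  obtain ⟨c, hc⟩ := h2
  have hc1 : 1 ≤ c := by
    rcases Nat.eq_zero_or_pos c with h | h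
    · rw [h] at hc; omega
    · exact h
  have hAc : b + 2 = A * c + 1 := by
    rw [hc] at h1
    have h3 : B * (A * c) = B * (b + 1) := by rw [← h1]; ring
    have := Nat.eq_of_mul_eq_mul_left hB1 h3
    omega
  refine ⟨c, hc1, ?_, hAc ▸ hq', ?_⟩
  · rw [← hc]; exact hq
  · have h3 : n + 1 = (m + 1) * (a + 2) := e1
    have h4 : (m + 1) * (a + 2) = (m + 1) * (a + 1) + (m + 1) := by ring
    rw [h4, hc] at h3
    have h5 : (m + 1) * (B * c) = (m + 1) * B * c := by ring
    omega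

/-- SVA -/
theorem sva : SVA := by
  obtain ⟨K, hK⟩ := (tendsto_lev.eventually_ge_atTop 101).exists_forall_of_atTop
  set X0 : ℝ := ((K : ℝ) + 2) ^ 2 with hX0
  have hX0p : 0 < X0 := by positivity
  set C1 : ℝ := Real.sqrt X0 * Real.log X0 ^ 2 with hC1
  have hC10 : 0 ≤ C1 := by positivity
  refine ⟨C1 + 64 * (32 + 27 * 1200 ^ 2), by positivity, ?_⟩
  intro m X hm hmX
  classical
  have hm0 : (2 : ℝ) ≤ m := by exact_mod_cast hm
  have hlm : 0 ≤ Real.log m := Real.log_nonneg (by linarith)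
  have hX16 : 16 ≤ X := by
    have : 2 ^ 4 ≤ m ^ 4 := Nat.pow_le_pow_left hm 4
    omega
  have hXr : (16 : ℝ) ≤ X := by exact_mod_cast hX16
  have hlX : 0 < Real.log X := Real.log_pos (by linarith)
  set F : ℕ → Prop := fun n => ∃ q q' : ℕ, q.Prime ∧ q'.Prime ∧ n + 1 = (m + 1) * q ∧
      n = (m - 1) * q' + 1 with hF
  have hbase : 0 ≤ (1 + Real.log m) ^ 2 / (m : ℝ) ^ 2 * X / Real.log X ^ 2 := by positivity
  have hre : ∀ c : ℝ, c * (1 + Real.log m) ^ 2 / m ^ 2 * X / Real.log X ^ 2 =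
      c * ((1 + Real.log m) ^ 2 / (m : ℝ) ^ 2 * X / Real.log X ^ 2) := fun c => by ring
  rw [hre]
  have hm2 : (m : ℝ) ^ 2 ≤ Real.sqrt X := by
    apply Real.le_sqrt_of_sq_le
    rw [← pow_mul]
    exact_mod_cast hmX
  rcases le_total X0 X with hXX | hXX
  swap
  · -- small X
    refine le_trans ?_ (mul_le_mul_of_nonneg_right
      (le_add_of_nonneg_right (by positivity) : C1 ≤ C1 + 64 * (32 + 27 * 1200 ^ 2)) hbase)
    have h1 : ((cnt F X : ℕ) : ℝ) ≤ X := by
      have : cnt F X ≤ X := by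
        unfold cnt
        refine (Finset.card_filter_le _ _).trans ?_
        simp
      exact_mod_cast this
    refine h1.trans ?_
    have h2 : Real.sqrt X ≤ Real.sqrt X0 := Real.sqrt_le_sqrt hXX
    have h3 : Real.log X ≤ Real.log X0 := Real.log_le_log (by linarith) hXX
    have h4 : (m : ℝ) ^ 2 * Real.log X ^ 2 ≤ C1 :=
      mul_le_mul (hm2.trans h2) (pow_le_pow_left₀ hlX.le h3 2) (by positivity) (by positivity)
    have h5 : 1 ≤ (1 + Real.log m) ^ 2 := one_le_pow₀ (by linarith)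
    calc (X : ℝ) = (m : ℝ) ^ 2 * Real.log X ^ 2 * (1 / (m : ℝ) ^ 2 * X / Real.log X ^ 2) := by
          field_simp
      _ ≤ C1 * ((1 + Real.log m) ^ 2 / (m : ℝ) ^ 2 * X / Real.log X ^ 2) := by
          refine mul_le_mul h4 ?_ (by positivity) hC10
          refine div_le_div_of_nonneg_right ?_ (by positivity)
          refine mul_le_mul_of_nonneg_right ?_ (by positivity)
          exact div_le_div_of_nonneg_right h5 (by positivity)
  · -- large X
    classical
    refine le_trans ?_ (mul_le_mul_of_nonneg_right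
      (le_add_of_nonneg_left hC10 : 64 * (32 + 27 * 1200 ^ 2) ≤
        C1 + 64 * (32 + 27 * 1200 ^ 2)) hbase)
    obtain ⟨g, A, B, hg1, hg2, hA, hB, hB1, hAB, hcop⟩ := dec m hm
    set L := (m + 1) * B with hL
    have hL0 : 0 < L := by positivity
    have hBm : B ≤ m - 1 := by
      have : 1 * B ≤ g * B := Nat.mul_le_mul_right B hg1
      omega
    have hLm : L ≤ m ^ 2 := by
      have h1 : L ≤ (m + 1) * (m - 1) := Nat.mul_le_mul_left _ hBm
      have h2 : (m + 1) * (m - 1) ≤ m ^ 2 := by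
        obtain ⟨l, rfl⟩ : ∃ l, m = l + 1 := ⟨m - 1, by omega⟩
        simp only [Nat.add_sub_cancel]
        nlinarith
      exact h1.trans h2
    set s := Nat.sqrt X with hs
    have hs1 : s * s ≤ X := Nat.sqrt_le X
    have hs2 : X < (s + 1) * (s + 1) := Nat.lt_succ_sqrt X
    have hms : m ^ 2 ≤ s := by
      rw [hs, Nat.le_sqrt]
      calc m ^ 2 * m ^ 2 = m ^ 4 := by ring
        _ ≤ X := hmX
    have hsK : K + 1 ≤ s := by
      by_contra hcon
      have h1 : (s : ℝ) + 1 ≤ K + 1 := by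
        have : s + 1 ≤ K + 1 := by omega
        exact_mod_cast this
      have h2 : (X : ℝ) < ((s : ℝ) + 1) * ((s : ℝ) + 1) := by exact_mod_cast hs2
      have h3 : X0 ≤ X := hXX
      rw [hX0] at h3
      have h4 : (0 : ℝ) ≤ s := Nat.cast_nonneg _
      nlinarith
    set Y := X / L with hY
    have hsY : s ≤ Y := by
      rw [hY, Nat.le_div_iff_mul_le hL0]
      exact (Nat.mul_le_mul_left s (hLm.trans hms)).trans hs1
    have hlev : 101 ≤ lev Y := hK Y (by omega)
    set Q := 2 * ((m + 1) * (m - 1)) with hQ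
    have hQ0 : Q ≠ 0 := by
      rw [hQ]
      have : 0 < m - 1 := by omega
      positivity
    have hAQ : A ∣ Q := by
      rw [hQ, hA]
      exact ⟨2 * (g * (m - 1)), by ring⟩
    have hBQ : B ∣ Q := by
      have : m - 1 = g * B := by omega
      rw [hQ, this]
      exact ⟨2 * ((m + 1) * g), by ring⟩
    have key := count_le A B Q Y (by omega) hB1 hAB hQ0 hAQ hBQ ⟨_, hQ⟩ hlev
    -- the injection
    have hform : ∀ n ∈ (Finset.Icc 1 X).filter F, ∃ c, 1 ≤ c ∧ (B * c + 1).Prime ∧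
        (A * c + 1).Prime ∧ n = m + L * c := by
      intro n hn
      rw [Finset.mem_filter] at hn
      obtain ⟨_, q, q', hq, hq', e1, e2⟩ := hn
      exact form g A B m n q q' hg1 hA hB hB1 hcop hq hq' e1 e2
    have hcnt : cnt F X ≤
        ((Finset.Icc 1 Y).filter (fun c => (B * c + 1).Prime ∧ (A * c + 1).Prime)).card := by
      have h0 : cnt F X = ((Finset.Icc 1 X).filter F).card := by
        unfold cnt
        congr!
      rw [h0]
      refine Finset.card_le_card_of_injOn (fun n => (n - m) / L) ?_ ?_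
      · intro n hn
        obtain ⟨c, hc1, hc2, hc3, hc4⟩ := hform n (Finset.mem_coe.1 hn)
        have hnX := (Finset.mem_Icc.1 (Finset.mem_filter.1 (Finset.mem_coe.1 hn)).1).2
        have hdiv : (n - m) / L = c := by
          rw [hc4, Nat.add_sub_cancel_left, Nat.mul_div_cancel_left c hL0]
        change (n - m) / L ∈ _
        rw [hdiv]
        refine Finset.mem_coe.2 (Finset.mem_filter.2 ⟨Finset.mem_Icc.2 ⟨hc1, ?_⟩, hc2, hc3⟩)
        rw [hY, Nat.le_div_iff_mul_le hL0]
        have : c * L = L * c := Nat.mul_comm _ _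
        omega
      · intro n hn n' hn' e
        obtain ⟨c, hc⟩ := hform n (Finset.mem_coe.1 hn)
        obtain ⟨c', hc'⟩ := hform n' (Finset.mem_coe.1 hn')
        simp only [hc.2.2.2, hc'.2.2.2, Nat.add_sub_cancel_left, Nat.mul_div_cancel_left _ hL0] at e
        rw [hc.2.2.2, hc'.2.2.2, e]
    have hcnt' : ((cnt F X : ℕ) : ℝ) ≤
        (32 + 3 * (1200 * ((Q.primeFactors.card : ℝ) + 1)) ^ 2) * (Y / Real.log Y ^ 2) :=
      le_trans (by exact_mod_cast hcnt) key
    refine hcnt'.trans ?_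
    -- sizes
    have hs4 : 4 ≤ s := by
      have : 2 ^ 2 ≤ m ^ 2 := Nat.pow_le_pow_left hm 2
      omega
    have hXY : X ≤ Y ^ 4 := by
      have h1 : s + 1 ≤ s * s := by nlinarith
      calc X ≤ (s + 1) * (s + 1) := hs2.le
        _ ≤ (s * s) * (s * s) := Nat.mul_le_mul h1 h1
        _ = s ^ 4 := by ring
        _ ≤ Y ^ 4 := Nat.pow_le_pow_left hsY 4
    have hY4 : (4 : ℝ) ≤ Y := by exact_mod_cast hs4.trans hsY
    have hlY : Real.log X ≤ 4 * Real.log Y := by
      have h1 : (X : ℝ) ≤ (Y : ℝ) ^ 4 := by exact_mod_cast hXY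
      have h2 := Real.log_le_log (by linarith) h1
      rw [Real.log_pow] at h2
      exact_mod_cast h2
    have hlY0 : 0 < Real.log Y := Real.log_pos (by linarith)
    have hYX : (Y : ℝ) ≤ 4 * X / (m : ℝ) ^ 2 := by
      have h1 : (Y : ℝ) ≤ (X : ℝ) / L := by
        rw [hY]; exact Nat.cast_div_le
      have h2 : (m : ℝ) ^ 2 / 4 ≤ L := by
        have h3 : ((m : ℝ) - 1) / 2 ≤ B := by
          have h4 : m ≤ 2 * B + 1 := by
            have : g * B ≤ 2 * B := Nat.mul_le_mul_right B hg2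
            omega
          have h5 : (m : ℝ) ≤ 2 * B + 1 := by exact_mod_cast h4
          linarith
        have h6 : (L : ℝ) = (m + 1) * B := by rw [hL]; push_cast; ring
        rw [h6]
        calc (m : ℝ) ^ 2 / 4 ≤ ((m : ℝ) + 1) * (((m : ℝ) - 1) / 2) := by nlinarith
          _ ≤ (m + 1) * B := mul_le_mul_of_nonneg_left h3 (by positivity)
      refine h1.trans ?_
      rw [div_le_div_iff₀ (by exact_mod_cast hL0) (by positivity)]
      have := mul_le_mul_of_nonneg_left h2 (by positivity : (0 : ℝ) ≤ 4 * X)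
      linarith
    have hr : (Q.primeFactors.card : ℝ) + 1 ≤ 3 * (1 + Real.log m) := by
      have h1 := card_pf Q hQ0
      have h2 : Real.log Q ≤ Real.log 2 + 2 * Real.log m := by
        have h3 : (Q : ℝ) ≤ 2 * (m : ℝ) ^ 2 := by
          have h4 : (m + 1) * (m - 1) ≤ m ^ 2 := by
            obtain ⟨l, rfl⟩ : ∃ l, m = l + 1 := ⟨m - 1, by omega⟩
            simp only [Nat.add_sub_cancel]
            nlinarith
          have h5 : Q ≤ 2 * m ^ 2 := Nat.mul_le_mul_left 2 h4
          exact_mod_cast h5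
        have h4 := Real.log_le_log (by exact_mod_cast Nat.pos_of_ne_zero hQ0) h3
        rw [Real.log_mul (by norm_num) (by positivity), Real.log_pow] at h4
        exact_mod_cast h4
      have h3 : Real.log Q / Real.log 2 ≤ 1 + 3 * Real.log m := by
        have hl2 := Real.log_two_gt_d9
        rw [div_le_iff₀ (by linarith)]
        nlinarith
      linarith
    have hr' : 32 + 3 * (1200 * ((Q.primeFactors.card : ℝ) + 1)) ^ 2 ≤
        (32 + 27 * 1200 ^ 2) * (1 + Real.log m) ^ 2 := by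
      have h1 : (1200 * ((Q.primeFactors.card : ℝ) + 1)) ^ 2 ≤
          (1200 * (3 * (1 + Real.log m))) ^ 2 :=
        pow_le_pow_left₀ (by positivity) (mul_le_mul_of_nonneg_left hr (by norm_num)) 2
      have h2 : 1 ≤ (1 + Real.log m) ^ 2 := one_le_pow₀ (by linarith)
      nlinarith
    have hfin : (Y : ℝ) / Real.log Y ^ 2 ≤ 4 * X / (m : ℝ) ^ 2 * (16 / Real.log X ^ 2) := by
      rw [div_eq_mul_one_div]
      refine mul_le_mul hYX ?_ (by positivity) (by positivity)
      rw [div_le_div_iff₀ (by positivity) (by positivity)]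
      have := pow_le_pow_left₀ hlX.le hlY 2
      nlinarith
    calc (32 + 3 * (1200 * ((Q.primeFactors.card : ℝ) + 1)) ^ 2) * (Y / Real.log Y ^ 2) ≤
        (32 + 27 * 1200 ^ 2) * (1 + Real.log m) ^ 2 *
          (4 * X / (m : ℝ) ^ 2 * (16 / Real.log X ^ 2)) :=
          mul_le_mul hr' hfin (by positivity) (by positivity)
      _ = 64 * (32 + 27 * 1200 ^ 2) * ((1 + Real.log m) ^ 2 / (m : ℝ) ^ 2 * X /
          Real.log X ^ 2) := by
          field_simp
          ring

end Pool.Agent.CAP.H67
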